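import Pool.Agent.N236.RT.App

/-!
# RT/PAIR: from the rank two Lehmer bound to eigenvalues
-/

set_option autoImplicit false

namespace Pool.Agent.N459.RT

open NumberField Module Pool.Agent.N236.RT Finset
open scoped Classical

/-- every embedding of `L` extends in `[E : L]` ways to `E` -/
theorem count {L E : Type} [Field L] [NumberField L] [Field E] [NumberField E] (i : L →+* E)
    (τ : L →+* ℂ) : finrank ℚ L *
      (Finset.univ.filter (fun σ : E →ₐ[ℚ] ℂ => (σ : E →+* ℂ).comp i = τ)).card =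
      finrank ℚ E := by
  letI : Algebra L E := i.toAlgebra
  letI : Algebra L ℂ := τ.toAlgebra
  haveI : FiniteDimensional L E := Module.Finite.of_restrictScalars_finite ℚ L E
  have h1 : Fintype.card (E →ₐ[L] ℂ) = finrank L E := AlgHom.card L E ℂ
  let e : {σ : E →ₐ[ℚ] ℂ // (σ : E →+* ℂ).comp i = τ} ≃ (E →ₐ[L] ℂ) :=
    { toFun := fun σ => { (σ.1 : E →+* ℂ) with commutes' := fun r => RingHom.congr_fun σ.2 r }
      invFun := fun f => ⟨RingHom.equivRatAlgHom E ℂ (f : E →+* ℂ), by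
        ext r
        exact f.commutes r⟩
      left_inv := fun σ => by
        apply Subtype.ext
        ext x
        rfl
      right_inv := fun f => by
        ext x
        rfl }
  have h2 : (Finset.univ.filter (fun σ : E →ₐ[ℚ] ℂ => (σ : E →+* ℂ).comp i = τ)).card =
      finrank L E := by
    rw [← h1, ← Fintype.card_congr e, Fintype.card_subtype]
  rw [h2]
  exact Module.finrank_mul_finrank ℚ L E

theorem lam_le {L E : Type} [Field L] [NumberField L] [Field E] [NumberField E] (i : L →+* E)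
    (S : Finset (L →+* ℂ)) (u : E) (l : ℝ) (hl : 0 ≤ l)
    (h1 : ∀ σ : E →+* ℂ, σ.comp i ∉ S → ‖σ u‖ ≤ 1)
    (h2 : ∀ σ : E →+* ℂ, σ.comp i ∈ S → Real.log ‖σ u‖ ≤ l) :
    lam u * finrank ℚ L ≤ S.card * finrank ℚ E * l := by
  have h3 : lam u ≤ ∑ σ : E →ₐ[ℚ] ℂ, (if (σ : E →+* ℂ).comp i ∈ S then l else 0) := by
    unfold lam
    refine Finset.sum_le_sum fun σ _ => ?_
    split_ifs with h
    · rcases le_total ‖σ u‖ 1 with h4 | h4
      · rw [max_eq_left h4, Real.log_one]; exact hl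
      · rw [max_eq_right h4]
        exact h2 (σ : E →+* ℂ) h
    · have h4 := h1 (σ : E →+* ℂ) h
      rw [max_eq_left (by exact h4), Real.log_one]
  have h4 : ∑ σ : E →ₐ[ℚ] ℂ, (if (σ : E →+* ℂ).comp i ∈ S then l else 0) =
      ∑ τ ∈ S, ∑ σ : E →ₐ[ℚ] ℂ, (if (σ : E →+* ℂ).comp i = τ then l else 0) := by
    rw [Finset.sum_comm]
    refine Finset.sum_congr rfl fun σ _ => ?_
    rw [Finset.sum_ite_eq]
  have h5 : ∀ τ ∈ S, (∑ σ : E →ₐ[ℚ] ℂ, (if (σ : E →+* ℂ).comp i = τ then l else 0)) *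
      finrank ℚ L = finrank ℚ E * l := by
    intro τ _
    rw [← Finset.sum_filter, Finset.sum_const, nsmul_eq_mul, ← count i τ]
    push_cast
    ring
  calc lam u * finrank ℚ L ≤ (∑ τ ∈ S, ∑ σ : E →ₐ[ℚ] ℂ,
        (if (σ : E →+* ℂ).comp i = τ then l else 0)) * finrank ℚ L :=
        mul_le_mul_of_nonneg_right (h3.trans h4.le) (Nat.cast_nonneg _)
    _ = S.card * finrank ℚ E * l := by
        rw [Finset.sum_mul, Finset.sum_congr rfl h5, Finset.sum_const, nsmul_eq_mul]
        ring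

theorem t_pair : S_AD → S_PAIR := by
  intro h ε hε
  obtain ⟨c, hc, hAD⟩ := h ε hε
  refine ⟨c, hc, fun L E _ _ _ _ i j S u v l hu hv hI hl h1 h2 h3 h4 => ?_⟩
  have h5 := hAD E u v hu hv hI
  have h6 := lam_le i S u l hl h1 h3
  have h7 := lam_le j S v l hl h2 h4
  calc c * (finrank ℚ E : ℝ) ^ (1 / 2 - ε) * finrank ℚ L ≤
        max (lam u) (lam v) * finrank ℚ L := mul_le_mul_of_nonneg_right h5 (Nat.cast_nonneg _)
    _ ≤ S.card * finrank ℚ E * l := by
        rcases max_choice (lam u) (lam v) with hm | hm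
        · rw [hm]; exact h6
        · rw [hm]; exact h7

end Pool.Agent.N459.RT
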